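import Pool.Agent.H76.SW.T

/-!
# Graphs of tree-width one are forests (module D8)
-/

set_option autoImplicit false

namespace Pool.Agent.H12.SW

open Pool.Agent.H76.SW

theorem pf_D8 (h1 : U_d1_root) : U_d8_forest := by
  classical
  intro V _ G h
  obtain ⟨D⟩ := h1 G 1 h
  choose t ht using D.conn
  -- the top bag has the smallest rank
  have F1 : ∀ (v : V) (n : ℕ) (x : D.N), D.rk x = n → v ∈ D.B x → x = t v ∨ D.rk (t v) < D.rk x := by
    intro v n
    induction n using Nat.strong_induction_on with
    | _ n ih =>
      intro x hx hv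
      rcases (ht v).2 x hv with h2 | ⟨y, hy, hvy⟩
      · exact Or.inl h2
      · right
        have h3 := D.hrk x y hy
        rcases ih (D.rk y) (by omega) y rfl hvy with h4 | h4
        · rw [← h4]; exact h3
        · omega
  have F2 : ∀ (u v : V) (n : ℕ) (x : D.N), D.rk x = n → u ∈ D.B x → v ∈ D.B x →
      D.rk (t u) ≤ D.rk (t v) → u ∈ D.B (t v) := by
    intro u v n
    induction n using Nat.strong_induction_on with
    | _ n ih =>
      intro x hx hu hv hle
      rcases (ht v).2 x hv with h2 | ⟨y, hy, hvy⟩
      · rw [← h2]; exact hu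
      · have h3 := D.hrk x y hy
        have h4 : D.rk (t v) < D.rk x := by
          rcases F1 v _ y rfl hvy with h5 | h5
          · rw [← h5]; exact h3
          · omega
        rcases (ht u).2 x hu with h5 | ⟨y', hy', huy⟩
        · rw [← h5] at hle
          omega
        · rw [hy] at hy'
          obtain rfl := Option.some.inj hy'
          exact ih (D.rk y) (by omega) y rfl huy hvy hle
  intro w c hc
  obtain ⟨v, hv, hmax⟩ := Finset.exists_max_image c.support.toFinset (fun z => D.rk (t z))
    ⟨w, by simp⟩
  rw [List.mem_toFinset] at hv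
  have hc' := hc.rotate hv
  have hn := hc'.not_nil
  have hs : ∀ z, z ∈ (c.rotate v hv).support → D.rk (t z) ≤ D.rk (t v) := by
    intro z hz
    rw [SimpleGraph.Walk.mem_support_rotate_iff] at hz
    exact hmax z (List.mem_toFinset.2 hz)
  have hadj : ∀ z, z ∈ (c.rotate v hv).support → G.Adj z v → z ∈ D.B (t v) := by
    intro z hz hzv
    obtain ⟨x, hx1, hx2⟩ := D.edge z v hzv
    exact F2 z v _ x rfl hx1 hx2 (hs z hz)
  have a1 := hadj _ (SimpleGraph.Walk.getVert_mem_support _ 1) (SimpleGraph.Walk.adj_snd hn).symm
  have a2 := hadj _ (SimpleGraph.Walk.getVert_mem_support _ _) (SimpleGraph.Walk.adj_penultimate hn)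
  have hne := hc'.snd_ne_penultimate
  have b1 := (SimpleGraph.Walk.adj_snd hn).ne
  have b2 := (SimpleGraph.Walk.adj_penultimate hn).ne
  have h3 : ({v, (c.rotate v hv).snd, (c.rotate v hv).penultimate} : Finset V).card = 3 := by
    rw [Finset.card_eq_three]
    exact ⟨_, _, _, b1, b2.symm, hne, rfl⟩
  have h4 : ({v, (c.rotate v hv).snd, (c.rotate v hv).penultimate} : Finset V) ⊆ D.B (t v) := by
    intro z hz
    rw [Finset.mem_insert, Finset.mem_insert, Finset.mem_singleton] at hz
    rcases hz with rfl | rfl | rfl
    · exact (ht _).1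
    · exact a1
    · exact a2
  have h5 := (Finset.card_le_card h4).trans (D.card (t v))
  omega

end Pool.Agent.H12.SW
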