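import Pool.Agent.H76.SW.T

/-!
# Monotonicity of the tree-width (module D9)
-/

set_option autoImplicit false

namespace Pool.Agent.H12.SW

open Pool.Agent.H76.SW

theorem pf_D9 : U_d9_mono := by
  intro V V' _ G G' φ h k k' hk hG
  obtain ⟨N, hN, T, B, hT, hcov, hedge, hconn, hcard⟩ := hG
  refine ⟨N, hN, T, fun x => φ ⁻¹' B x, hT, fun v => hcov (φ v), fun u v huv => ?_,
    fun v => hconn (φ v), fun x => ⟨Set.toFinite _, ?_⟩⟩
  · exact hedge (φ u) (φ v) (h u v huv)
  · have h1 : (φ ⁻¹' B x).ncard ≤ (B x).ncard := by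
      rw [← Set.ncard_image_of_injective _ φ.injective]
      exact Set.ncard_le_ncard (Set.image_preimage_subset _ _) (hcard x).1
    exact (h1.trans (hcard x).2).trans (by omega)

end Pool.Agent.H12.SW
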